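import Pool.Agent.H.MP_65fbb9_lc.B

set_option autoImplicit false

namespace Pool.Agent.Results.MP_65fbb9_lc.Eq

open Filter Pool.Agent.H.MP_65fbb9_lc Pool.Agent.Lib.helper21 Pool.Agent.Lib.helper21.PR

/-- Oracles computing a set whose agreement with every computable set has lower density at
most `p`. -/
def Dsim (p : ℝ) : Set (ℕ → Bool) :=
  {A | ∃ X : ℕ → Bool, TuringReducible (Fn.orc X) (Fn.orc A) ∧
    ∀ S : ℕ → Bool, Computable S → ld X S ≤ p}

/-- Oracles computing a function infinitely often equal to every computable function below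
`h`. -/
def Dne (h : ℕ → ℕ) : Set (ℕ → Bool) :=
  {A | ∃ x : ℕ → ℕ, TuringReducible (fun n => Part.some (x n)) (Fn.orc A) ∧
    ∀ y : ℕ → ℕ, Computable y → (∀ n, y n < h n) → ∃ᶠ n in atTop, x n = y n}

theorem result : Dsim 0 = Dne (fun n => 2 ^ 2 ^ n) ∧
    Dne (fun n => 2 ^ n.factorial) = Dne fun n => 2 ^ 2 ^ n := by
  refine ⟨Set.ext fun A => ⟨fun ⟨X, h1, h2⟩ => (io_iff fun _ => by positivity).1 (decode (.of_orc h1)
    fun C hC => (h2 C (comp_bool hC)).trans_lt (by norm_num)), fun h => ?_⟩, Set.ext fun A =>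
      (io_iff fun _ => by positivity).symm.trans (io_fac.trans (io_iff fun _ => by positivity))⟩
  obtain ⟨Z, h3, h4⟩ := zero (boost 2 ((io_iff fun _ => by positivity).2 h))
  exact ⟨Z, h3.orc, fun C hC => (h4 C (Computable.ci hC)).le⟩

end Pool.Agent.Results.MP_65fbb9_lc.Eq
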